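import Pool.Agent.W845.GL.Stm

set_option autoImplicit false

namespace Pool.Agent.W274.GL

open Finset Pool.Agent.W845.GL

theorem lb {ι : Type} (s : Finset ι) (f : ι → ℝ) (h : ∀ i ∈ s, 0 ≤ f i ∧ f i ≤ 1) :
    1 - ∑ i ∈ s, f i ≤ ∏ i ∈ s, (1 - f i) ∧ 0 ≤ ∏ i ∈ s, (1 - f i) ∧ ∏ i ∈ s, (1 - f i) ≤ 1 := by
  classical
  induction s using Finset.induction_on with
  | empty => simp
  | insert a s ha ih =>
    obtain ⟨h1, h2, h3⟩ := ih fun i hi => h i (mem_insert_of_mem hi)
    obtain ⟨k1, k2⟩ := h a (mem_insert_self a s)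
    rw [sum_insert ha, prod_insert ha]
    refine ⟨by nlinarith, mul_nonneg (by linarith) h2, by nlinarith⟩

theorem db : S_T0 → S_DB := by
  rintro ⟨ha, hb, _, _, _, _, _, _, _, hs⟩ i x
  have hsum : ∑ j : Fin i, bb j ≤ 1 / 15 := by
    rw [Fin.sum_univ_eq_sum_range (fun j => bb j) i]
    exact hs i
  have hfac : ∀ j : Fin i, 1 - 2 * bb j ≤ (1 + bb j * sg (x j)) * (1 + aa j * bb j * sg (x j)) ∧
      (1 + bb j * sg (x j)) * (1 + aa j * bb j * sg (x j)) ≤ Real.exp (2 * bb j) := by
    intro j
    obtain ⟨a0, a1⟩ := ha j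
    obtain ⟨b0, b1⟩ := hb j
    have he : (1 + bb j) * (1 + bb j) ≤ Real.exp (2 * bb j) := by
      have h1 : 1 + bb j ≤ Real.exp (bb j) := by
        have := Real.add_one_le_exp (bb j)
        linarith
      have h2 : Real.exp (2 * bb j) = Real.exp (bb j) * Real.exp (bb j) := by
        rw [← Real.exp_add]; congr 1; ring
      rw [h2]
      exact mul_le_mul h1 h1 (by linarith) (Real.exp_pos _).le
    have hab : aa j * bb j ≤ bb j := by nlinarith
    have hab0 : 0 ≤ aa j * bb j := by positivity
    generalize aa j * bb j = c at *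
    generalize bb j = b at *
    unfold sg
    cases x j
    · simp only [Bool.false_eq_true, if_false]
      constructor
      · nlinarith
      · refine le_trans ?_ he
        nlinarith
    · simp only [if_true]
      constructor
      · nlinarith
      · refine le_trans ?_ he
        nlinarith
  unfold DD
  constructor
  · have h1 := (lb (univ : Finset (Fin i)) (fun j => 2 * bb j) (fun j _ => by
      have := hb j
      constructor <;> linarith)).1
    rw [← mul_sum] at h1
    have h2 : ∏ j : Fin i, (1 - 2 * bb j) ≤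
        ∏ j : Fin i, (1 + bb j * sg (x j)) * (1 + aa j * bb j * sg (x j)) := by
      apply prod_le_prod
      · intro j _
        have := hb j
        linarith
      · intro j _
        exact (hfac j).1
    linarith
  · have h2 : ∏ j : Fin i, (1 + bb j * sg (x j)) * (1 + aa j * bb j * sg (x j)) ≤
        ∏ j : Fin i, Real.exp (2 * bb j) := by
      apply prod_le_prod
      · intro j _
        have := hb j
        have := (hfac j).1
        linarith
      · intro j _
        exact (hfac j).2
    rw [← Real.exp_sum, ← mul_sum] at h2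
    have h3 : Real.exp (2 * ∑ j : Fin i, bb j) ≤ Real.exp (2 / 15) := by
      apply Real.exp_le_exp.2
      linarith
    have h4 : Real.exp (2 / 15) ≤ 2 := by
      have h5 := Real.one_sub_le_exp_neg (2 / 15)
      rw [Real.exp_neg] at h5
      have h6 := Real.exp_pos (2 / 15)
      have h7 : Real.exp (2 / 15) * (Real.exp (2 / 15))⁻¹ = 1 := mul_inv_cancel₀ h6.ne'
      nlinarith
    linarith

end Pool.Agent.W274.GL
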